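import Pool.Agent.Y134.Cyc.Chars
import Pool.Agent.Y134.Two.Line

/-!
# The number of the eigenvalues of Frobenius which are roots of unity
-/

set_option autoImplicit false

namespace Pool.Agent.Run7.h735.CP

open Finset Polynomial Module Pool.Agent.Y134.Cyc Pool.Agent.Y134.Two

/-- A multiset is covered by the values of a function. -/
lemma card_filter_le_sum {E ι : Type} [DecidableEq E] (A : Multiset E) (P : E → Prop)
    [DecidablePred P] (I : Finset ι) (f : ι → E) (h : ∀ x ∈ A, P x → ∃ i ∈ I, f i = x) :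
    (A.filter P).card ≤ ∑ i ∈ I, A.count (f i) := by
  induction A using Multiset.induction_on with
  | empty => simp
  | cons a A ih =>
    have ih' := ih fun x hx hP => h x (Multiset.mem_cons_of_mem hx) hP
    have h1 : ∑ i ∈ I, (a ::ₘ A).count (f i) =
        ∑ i ∈ I, A.count (f i) + ∑ i ∈ I, (if f i = a then 1 else 0) := by
      rw [← sum_add_distrib]
      exact sum_congr rfl fun i _ => Multiset.count_cons _ _ _
    rw [h1]
    by_cases hP : P a
    · rw [Multiset.filter_cons_of_pos _ hP, Multiset.card_cons]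
      obtain ⟨i, hi, hfi⟩ := h a (Multiset.mem_cons_self a A) hP
      have h2 : 1 ≤ ∑ i ∈ I, (if f i = a then 1 else 0) := by
        have h3 : (if f i = a then 1 else 0) ≤ ∑ i ∈ I, (if f i = a then 1 else 0) :=
          single_le_sum (f := fun i => if f i = a then 1 else 0) (fun _ _ => Nat.zero_le _) hi
        rwa [if_pos hfi] at h3
      omega
    · rw [Multiset.filter_cons_of_neg _ hP]
      omega

section
variable {E : Type} [Field E] [DecidableEq E]

omit [DecidableEq E] in
lemma mem_p_roots {p : ℕ} (hp : p.Prime) {y : E} {m b m' c : ℕ} (hmb : m = p ^ b * m')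
    (hm' : ¬ p ∣ m') (hy : y ^ m = 1) (hy' : y ^ p ^ c = 1) : y ^ p ^ b = 1 := by
  have h6 : orderOf y ∣ m := orderOf_dvd_of_pow_eq_one hy
  have h7 : orderOf y ∣ p ^ c := orderOf_dvd_of_pow_eq_one hy'
  obtain ⟨e, -, he⟩ := (Nat.dvd_prime_pow hp).1 h7
  rw [he, hmb] at h6
  have h8 : p ^ e ∣ p ^ b := by
    refine (Nat.Coprime.dvd_of_dvd_mul_right ?_ h6)
    exact Nat.Coprime.pow_left e ((Nat.Prime.coprime_iff_not_dvd hp).2 hm')
  rw [← he] at h8
  exact orderOf_dvd_iff_pow_eq_one.1 h8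

/-- The number of the `x` in `A` with `x ^ m = Q ^ m`. -/
theorem card_le {p : ℕ} (hp : p.Prime) (A : Multiset E) {Q : E} (hQ : Q ≠ 0) {H : (ZMod p)[X]}
    (hkey : ∀ (M : ℕ) (ζ : E) (b : ℕ), 0 < M → ¬ p ∣ M → IsPrimitiveRoot ζ M →
      cyclotomic M (ZMod p) ^ (∑ η ∈ nthRootsFinset (p ^ b) (1 : E), A.count (Q * (ζ * η))) ∣ H)
    (c : ℕ →₀ ℕ) (hc : ∀ M : ℕ, ¬ p ∣ M → ¬ cyclotomic M (ZMod p) ^ (c M + 1) ∣ H) {m : ℕ}
    (hm : 0 < m) :
    (A.filter fun x => x ^ m = Q ^ m).card ≤ c.sum fun M e => M.totient * e := by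
  classical
  obtain ⟨b, m', hm', hmb⟩ := Nat.exists_eq_pow_mul_and_not_dvd hm.ne' p hp.ne_one
  let I : Finset (Σ _ : ℕ, E × E) := (m.divisors.filter fun M => ¬ p ∣ M).sigma fun M =>
    primitiveRoots M E ×ˢ nthRootsFinset (p ^ b) (1 : E)
  have h1 := card_filter_le_sum A (fun x => x ^ m = Q ^ m) I (fun i => Q * (i.2.1 * i.2.2)) (by
    intro x _ hx
    have h5 : (x / Q) ^ m = 1 := by rw [div_pow, hx, div_self (pow_ne_zero m hQ)]
    obtain ⟨M, e, ζ, η, hMm, hMp, hζ, hη, hy⟩ := decomp hp hm h5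
    have hx' : x = Q * (ζ * η) := by rw [← hy]; field_simp
    have hM : 0 < M := Nat.pos_of_dvd_of_pos hMm hm
    refine ⟨⟨M, ζ, η⟩, ?_, hx'.symm⟩
    rw [mem_sigma, mem_filter, Nat.mem_divisors, mem_product, mem_primitiveRoots hM,
      mem_nthRootsFinset (pow_pos hp.pos b)]
    refine ⟨⟨⟨hMm, hm.ne'⟩, hMp⟩, hζ, ?_⟩
    -- `η ^ m = 1`
    have h6 : η ^ m = 1 := by
      have h7 : ζ ^ m = 1 := by
        obtain ⟨t, ht⟩ := hMm
        rw [ht, pow_mul, hζ.pow_eq_one, one_pow]
      rw [hy, mul_pow, h7, one_mul] at h5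
      exact h5
    exact mem_p_roots hp hmb hm' h6 hη)
  refine h1.trans ?_
  rw [sum_sigma]
  have h2 : ∀ M ∈ m.divisors.filter fun M => ¬ p ∣ M,
      ∑ x ∈ primitiveRoots M E ×ˢ nthRootsFinset (p ^ b) (1 : E), A.count (Q * (x.1 * x.2)) ≤
        M.totient * c M := by
    intro M hM
    rw [mem_filter, Nat.mem_divisors] at hM
    have hM0 : 0 < M := Nat.pos_of_dvd_of_pos hM.1.1 hm
    rw [sum_product]
    have h3 : ∀ ζ ∈ primitiveRoots M E,
        ∑ η ∈ nthRootsFinset (p ^ b) (1 : E), A.count (Q * (ζ * η)) ≤ c M := by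
      intro ζ hζ
      rw [mem_primitiveRoots hM0] at hζ
      by_contra hlt
      rw [not_le] at hlt
      exact hc M hM.2 ((pow_dvd_pow _ hlt).trans (hkey M ζ b hM0 hM.2 hζ))
    refine (sum_le_sum h3).trans ?_
    rw [sum_const, smul_eq_mul]
    refine Nat.mul_le_mul_right _ ?_
    by_cases hne : (primitiveRoots M E).Nonempty
    · obtain ⟨ζ, hζ⟩ := hne
      rw [mem_primitiveRoots hM0] at hζ
      exact hζ.card_primitiveRoots.le
    · rw [not_nonempty_iff_eq_empty.1 hne, card_empty]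
      exact Nat.zero_le _
  refine (sum_le_sum h2).trans ?_
  unfold Finsupp.sum
  have h4 : ∑ M ∈ m.divisors.filter fun M => ¬ p ∣ M, M.totient * c M =
      ∑ M ∈ (m.divisors.filter fun M => ¬ p ∣ M) ∩ c.support, M.totient * c M := by
    symm
    apply sum_subset inter_subset_left
    intro M hM hM'
    rw [mem_inter, not_and] at hM'
    have h5 : c M = 0 := by
      by_contra h6
      exact hM' hM (Finsupp.mem_support_iff.2 h6)
    rw [h5, mul_zero]
  rw [h4]
  exact sum_le_sum_of_subset inter_subset_right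

end

section
variable {E : Type} [Field E] [CharZero E] [IsAlgClosed E] {V : Type} [AddCommGroup V] [Module E V]
  [FiniteDimensional E V]

/-- The dimension of the space on which the `m`-th power is scalar, for a direct sum of stable parts. -/
theorem finrank_le_sum {n : ℕ} (Ψ : Module.End E V) (W : Fin n → Submodule E V)
    (hW : DirectSum.IsInternal W) (hstab : ∀ j, ∀ v ∈ W j, Ψ v ∈ W j) {m : ℕ} {c : E} {B : ℕ}
    (hB : ∀ j, ∀ N : Submodule E (W j), N ≤ N.comap (Ψ.restrict (hstab j)) →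
      (∀ x ∈ N, ((Ψ.restrict (hstab j)) ^ m) x = c • x) → finrank E N ≤ B)
    (N : Submodule E V) (hN : ∀ x ∈ N, (Ψ ^ m) x = c • x) : finrank E N ≤ n * B := by
  classical
  -- the components
  let e : (DirectSum (Fin n) fun j => W j) ≃ₗ[E] V :=
    LinearEquiv.ofBijective (DirectSum.coeLinearMap W) hW
  let π : ∀ j, V →ₗ[E] W j := fun j => (DirectSum.component E (Fin n) (fun j => W j) j) ∘ₗ
    e.symm.toLinearMap
  have hsum : ∀ v, ∑ j, (π j v : V) = v := by
    intro v
    have h1 : e (e.symm v) = v := e.apply_symm_apply v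
    conv_rhs => rw [← h1]
    change _ = DirectSum.coeLinearMap W (e.symm v)
    rw [DirectSum.coeLinearMap_eq_dfinsuppSum, DFinsupp.sum_eq_sum_fintype]
    · rfl
    · intro i
      rfl
  have huniq : ∀ (w : ∀ j, W j) (j : Fin n), π j (∑ i, (w i : V)) = w j := by
    intro w j
    have h1 : ∑ i, (w i : V) = e (∑ i, DirectSum.lof E (Fin n) (fun j => W j) i (w i)) := by
      rw [map_sum]
      refine sum_congr rfl fun i _ => ?_
      change _ = DirectSum.coeLinearMap W _
      rw [DirectSum.coeLinearMap_lof]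
    rw [h1]
    change DirectSum.component E (Fin n) (fun j => W j) j (e.symm (e _)) = _
    rw [LinearEquiv.symm_apply_apply, map_sum]
    rw [sum_eq_single j]
    · exact DirectSum.component.lof_self E (M := fun j => W j) j (w j)
    · intro i _ hij
      rw [DirectSum.component.of]
      exact dif_neg hij
    · intro h
      exact absurd (mem_univ j) h
  have hcomm : ∀ j v, π j (Ψ v) = Ψ.restrict (hstab j) (π j v) := by
    intro j v
    have h1 : Ψ v = ∑ i, ((Ψ.restrict (hstab i) (π i v) : W i) : V) := by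
      conv_lhs => rw [← hsum v, map_sum]
      rfl
    rw [h1]
    exact huniq (fun i => Ψ.restrict (hstab i) (π i v)) j
  have hpow : ∀ j (i : ℕ) v, π j ((Ψ ^ i) v) = ((Ψ.restrict (hstab j)) ^ i) (π j v) := by
    intro j i
    induction i with
    | zero => intro v; rfl
    | succ i ih =>
      intro v
      rw [pow_succ, Module.End.mul_apply, ih, hcomm, pow_succ, Module.End.mul_apply]
  let K : ∀ j, Submodule E (W j) := fun j =>
    LinearMap.ker ((Ψ.restrict (hstab j)) ^ m - c • (1 : Module.End E (W j)))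
  have hK : ∀ j y, y ∈ K j ↔ ((Ψ.restrict (hstab j)) ^ m) y = c • y := by
    intro j y
    rw [LinearMap.mem_ker, LinearMap.sub_apply, sub_eq_zero, LinearMap.smul_apply,
      Module.End.one_apply]
  have hKB : ∀ j, finrank E (K j) ≤ B := fun j => hB j (K j) (fun y hy => by
    rw [Submodule.mem_comap, hK, ← Module.End.mul_apply, ← pow_succ, pow_succ',
      Module.End.mul_apply, (hK j y).1 hy, map_smul]) fun y hy => (hK j y).1 hy
  let T : N →ₗ[E] (∀ j, K j) := LinearMap.pi fun j =>
    ((π j).comp N.subtype).codRestrict (K j) fun x => by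
      rw [hK]
      change ((Ψ.restrict (hstab j)) ^ m) (π j x) = c • π j x
      rw [← hpow, hN x x.2, map_smul]
  have hT : Function.Injective T := by
    intro x y hxy
    apply Subtype.ext
    rw [← hsum x, ← hsum y]
    refine sum_congr rfl fun j _ => ?_
    have h1 := congrFun hxy j
    exact congrArg (fun z : K j => ((z : W j) : V)) h1
  refine (LinearMap.finrank_le_finrank_of_injective hT).trans ?_
  rw [Module.finrank_pi_fintype]
  refine (sum_le_sum fun j _ => hKB j).trans ?_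
  rw [sum_const, card_univ, Fintype.card_fin, smul_eq_mul]

/-- **The bound for the space on which the `m`-th power of Frobenius is `q ^ m`.** -/
theorem finrank_le {p : ℕ} (hp : p.Prime) {n : ℕ} (Ψ : Module.End E V) (W : Fin n → Submodule E V)
    (hW : DirectSum.IsInternal W) (hstab : ∀ j, ∀ v ∈ W j, Ψ v ∈ W j) {Q : E} (hQ : Q ≠ 0)
    {H : (ZMod p)[X]}
    (hkey : ∀ (j : Fin n) (M b : ℕ) (ζ : E), 0 < M → ¬ p ∣ M → IsPrimitiveRoot ζ M →
      cyclotomic M (ZMod p) ^ (∑ η ∈ nthRootsFinset (p ^ b) (1 : E),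
        finrank E (Module.End.maxGenEigenspace (Ψ.restrict (hstab j)) (Q * (ζ * η)))) ∣ H)
    (c : ℕ →₀ ℕ) (hc : ∀ M : ℕ, ¬ p ∣ M → ¬ cyclotomic M (ZMod p) ^ (c M + 1) ∣ H) {m : ℕ}
    (hm : 0 < m) (N : Submodule E V) (hN : ∀ x ∈ N, (Ψ ^ m) x = Q ^ m • x) :
    finrank E N ≤ n * c.sum fun M e => M.totient * e := by
  classical
  refine finrank_le_sum Ψ W hW hstab (m := m) (c := Q ^ m) (fun j N' hN' hN'' => ?_) N hN
  have h1 := finrank_le_card (E := E) hN' hN''
  refine h1.trans ?_
  have h2 : (Ψ.restrict (hstab j)).charpoly.map (algebraMap E E) =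
      (Ψ.restrict (hstab j)).charpoly := by
    rw [Algebra.algebraMap_self, Polynomial.map_id]
  rw [h2]
  refine card_le hp _ hQ (fun M ζ b hM hMp hζ => ?_) c hc hm
  have h3 := hkey j M b ζ hM hMp hζ
  have h4 : ∑ η ∈ nthRootsFinset (p ^ b) (1 : E),
      finrank E (Module.End.maxGenEigenspace (Ψ.restrict (hstab j)) (Q * (ζ * η)))
      = ∑ η ∈ nthRootsFinset (p ^ b) (1 : E),
        (Ψ.restrict (hstab j)).charpoly.roots.count (Q * (ζ * η)) := by
    refine sum_congr rfl fun η _ => ?_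
    rw [LinearMap.finrank_maxGenEigenspace_eq, count_roots]
  rwa [h4] at h3

end

end Pool.Agent.Run7.h735.CP
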