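import Pool.Agent.Run7.h735.CP.Defs
import Pool.Agent.Run7.h735.CP.Card
import Pool.Agent.Run7.h735.TP.Main
import Pool.Agent.Y134.Cyc.Tate

/-!
# Cyclic coverings of the plane: the Tate conjecture from one place
-/

set_option autoImplicit false

universe u

namespace Pool.Agent.Run7.h735.CP

open Polynomial Module Pool.Agent.Y134.TF Pool.Agent.Y130 Pool.Agent.TH125.Gal
  Pool.Agent.TH118.SG Pool.Agent.Y134.Cyc Pool.Agent.Run7.h735.TP
open Pool.Agent.H914 Pool.Agent.H914.VarClass Pool.Agent.H914.VarClass.Obj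
  Pool.Agent.H914.WeilCohomology Pool.Agent.H281R3.HT Pool.Agent.W552

variable {k : Type u} [Field k] {𝒱 : VarClass k} {ops : CycleOps 𝒱}
  {W : WeilCohomology.{u, 0} ops} {Γ : Type} [Group Γ] {χ : Γ →* W.Kˣ} {S : PVar W Γ}

/-- The Tate conjecture if the Tate classes in `P` are combinations of classes of cycles. -/
theorem tate_of {d : ℕ} (h : Cover χ S d)
    (hP' : ∀ Δ : Subgroup Γ, Δ.FiniteIndex → ∀ x ∈ S.P,
      (∀ g ∈ Δ, S.act g x = (χ g : W.K) ^ d • x) → x ∈ algSpan W S.X) :
    TateConjecture χ S.toGVar := by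
  obtain ⟨A, hA, hAP, ho⟩ := h.sum
  have hA : A ≤ algSpan W S.X := hA
  have hP : S.P ≤ W.gr S.X S.X.dim := h.middle
  have hd : S.X.dim = 2 * d := h.dim
  have hG := h.galois
  rintro j c hc ⟨Δ, hΔ, hfix⟩
  have h1 : c ∈ A ⊔ S.P := by rw [hAP]; exact Submodule.mem_top
  obtain ⟨a, ha, p, hp, rfl⟩ := Submodule.mem_sup.1 h1
  refine algSpan_gr (Submodule.add_mem _ (hA ha) ?_) hc
  by_cases hj : j = d
  · subst hj
    have h3 : p ∈ W.gr S.X (2 * j) := by
      rw [← hd]
      exact hP hp
    have h4 : a ∈ W.gr S.X (2 * j) := by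
      have := (W.gr S.X (2 * j)).sub_mem hc h3
      rwa [add_sub_cancel_right] at this
    obtain ⟨Δ', hΔ', h5⟩ := exists_fix hG (algSpan_gr (hA ha) h4)
    refine hP' (Δ ⊓ Δ') inferInstance p hp fun g hg => ?_
    have h6 := hfix g hg.1
    rw [map_add, smul_add] at h6
    have h7 : S.act g a = (χ g : W.K) ^ j • a := h5 g hg.2
    rw [h7] at h6
    exact add_left_cancel h6
  · have hp0 : p = 0 := by
      apply W.nondeg
      intro y
      have hy : y ∈ A ⊔ S.P := by rw [hAP]; exact Submodule.mem_top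
      obtain ⟨a', ha', p', hp', rfl⟩ := Submodule.mem_sup.1 hy
      rw [mul_add, map_add]
      have h2 : W.tr S.X (p * a') = 0 := by
        rw [← alg_comm (hA ha')]
        exact ho a' ha' p hp
      have h3 : W.tr S.X ((a + p) * p') = 0 := by
        refine W.tr_eq_zero (W.mul_mem hc (hP hp')) ?_
        omega
      rw [add_mul, map_add, ho a ha p' hp', zero_add] at h3
      rw [h2, h3, add_zero]
    rw [hp0]
    exact Submodule.zero_mem _

/-- A subgroup of finite index which fixes a space spanned by classes of cycles. -/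
theorem exists_fix_all (hG : IsGaloisAct χ (W.gr S.X) S.X.dim (W.tr S.X) (algClasses W S.X) S.act)
    (N : Submodule W.K (W.H S.X)) {j : ℕ} (hN : N ≤ Submodule.span W.K (algClasses W S.X j)) :
    ∃ Δ : Subgroup Γ, Δ.FiniteIndex ∧ ∀ x ∈ N, ∀ g ∈ Δ, S.act g x = (χ g : W.K) ^ j • x := by
  classical
  obtain ⟨s, hs⟩ := (IsNoetherian.noetherian N : N.FG)
  choose D hD1 hD2 using fun x : {x // x ∈ N} => exists_fix (X := S.toGVar) hG (hN x.2)
  have key : ∀ t : Finset (W.H S.X), (∀ x ∈ t, x ∈ N) → ∃ Δ : Subgroup Γ, Δ.FiniteIndex ∧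
      ∀ x ∈ t, ∀ g ∈ Δ, S.act g x = (χ g : W.K) ^ j • x := by
    intro t
    induction t using Finset.induction_on with
    | empty => exact fun _ => ⟨⊤, inferInstance, by simp⟩
    | insert a t ha ih =>
      intro ht
      obtain ⟨Δ, h1, h2⟩ := ih fun x hx => ht x (Finset.mem_insert_of_mem hx)
      have haN : a ∈ N := ht a (Finset.mem_insert_self _ _)
      have := hD1 ⟨a, haN⟩
      refine ⟨Δ ⊓ D ⟨a, haN⟩, inferInstance, fun x hx g hg => ?_⟩
      rcases Finset.mem_insert.1 hx with rfl | hx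
      · exact hD2 ⟨x, haN⟩ g hg.2
      · exact h2 x hx g hg.1
  obtain ⟨Δ, h1, h2⟩ := key s fun x hx => by rw [← hs]; exact Submodule.subset_span hx
  refine ⟨Δ, h1, fun x hx g hg => ?_⟩
  rw [← hs] at hx
  induction hx using Submodule.span_induction with
  | mem x hx => exact h2 x hx g hg
  | zero => rw [map_zero, smul_zero]
  | add x y _ _ hx hy => rw [map_add, hx, hy, smul_add]
  | smul c x _ hx => rw [map_smul, hx, smul_comm]

variable [IsAlgClosed W.K] {p s : ℕ} {H : (ZMod p)[X]} {c : ℕ →₀ ℕ}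

/-- **The bound.** -/
theorem finrank_tate (hp : p.Prime) (hs : 1 ≤ s) (v : CyclicPlace χ S.act S.P p s H)
    (hc : Divides p H c) {Δ : Subgroup Γ} (hΔ : Δ.FiniteIndex) :
    tateRank χ S Δ ≤ bound p s c := by
  classical
  change finrank W.K (tateIn χ S.act S.P Δ) ≤ bound p s c
  letI := v.field
  letI := v.fintype
  obtain ⟨-, hkey, -⟩ := tate_main hp hs v.dvd v.F v.θ v.order v.zeta.P₁ v.zeta.P₂
    v.zeta.roots₁.1 v.zeta.roots₂.1 v.zeta.B₁ v.zeta.B₂ v.zeta.roots₁.2 v.zeta.roots₂.2 v.zeta.curve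
    H v.zeta.quotient
    ((S.act v.φ).toLinearMap.restrict v.stable) v.parts.part v.parts.internal v.parts.stable
    v.parts.trace
  obtain ⟨m, hm, -, hmΔ⟩ := Δ.exists_pow_mem_of_index_ne_zero hΔ.index_ne_zero v.φ
  have hq0 : (Fintype.card v.κ : W.K) ≠ 0 := by exact_mod_cast Fintype.card_ne_zero
  have h1 := finrank_le hp ((S.act v.φ).toLinearMap.restrict v.stable) v.parts.part v.parts.internal
    v.parts.stable hq0 hkey c hc hm ((tateIn χ S.act S.P Δ).comap S.P.subtype) (by
      intro x hx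
      apply Subtype.ext
      have h2 : ∀ (i : ℕ) (y : S.P), ((((S.act v.φ).toLinearMap.restrict v.stable) ^ i) y :
          W.H S.X) = S.act (v.φ ^ i) y := by
        intro i
        induction i with
        | zero => intro y; rw [pow_zero, pow_zero, map_one]; rfl
        | succ i ih =>
          intro y
          rw [pow_succ, Module.End.mul_apply, ih, pow_succ, map_mul, AlgEquiv.mul_apply]
          rfl
      rw [h2]
      have h3 : S.act (v.φ ^ m) (x : W.H S.X) = (χ (v.φ ^ m) : W.K) • (x : W.H S.X) :=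
        hx.2 _ hmΔ
      rw [h3, map_pow, Units.val_pow_eq_pow_val, v.frob]
      rfl)
  have h4 : finrank W.K ((tateIn χ S.act S.P Δ).comap S.P.subtype) =
      finrank W.K (tateIn χ S.act S.P Δ) := by
    have h5 : ((tateIn χ S.act S.P Δ).comap S.P.subtype).map S.P.subtype = tateIn χ S.act S.P Δ := by
      rw [Submodule.map_comap_subtype]
      exact inf_eq_right.2 fun x hx => hx.1
    conv_rhs => rw [← h5]
    exact (Submodule.equivMapOfInjective S.P.subtype S.P.injective_subtype _).finrank_eq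
  rw [h4] at h1
  exact h1

/-- **The Tate conjecture if the bound is attained.** -/
theorem tate_attained (h : Cover χ S 1) (hp : p.Prime) (hs : 1 ≤ s)
    (v : CyclicPlace χ S.act S.P p s H) (hc : Divides p H c)
    (hatt : bound p s c ≤ curveRank S) : TateOverAll χ S := by
  have hT : TateConjecture χ S.toGVar := by
    refine tate_of h fun Δ hΔ x hx hfix => ?_
    obtain ⟨Δ', hΔ', h1⟩ := exists_fix_all (j := 1) h.galois (curvesIn (algClasses W S.X) S.P) inf_le_right
    have h2 : curvesIn (algClasses W S.X) S.P ≤ tateIn χ S.act S.P (Δ ⊓ Δ') := fun y hy =>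
      ⟨hy.1, fun g hg => by
        have := h1 y hy g hg.2
        rwa [pow_one] at this⟩
    have h3 := finrank_tate hp hs v hc (Δ := Δ ⊓ Δ') inferInstance
    have h4 : curvesIn (algClasses W S.X) S.P = tateIn χ S.act S.P (Δ ⊓ Δ') :=
      Submodule.eq_of_le_of_finrank_le h2 (h3.trans hatt)
    have h5 : x ∈ curvesIn (algClasses W S.X) S.P := by
      rw [h4]
      exact ⟨hx, fun g hg => by
        have := hfix g hg.1
        rwa [pow_one] at this⟩
    exact Submodule.span_mono (Set.subset_iUnion _ 1) h5.2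
  intro Δ hΔ j a ha hfix
  exact descend (X := S.toGVar) h.galois (hT j a ha ⟨Δ, hΔ, hfix⟩) hfix

/-- **No cyclotomic polynomial.** -/
theorem tate_zero (h : Cover χ S 1) (hp : p.Prime) (hs : 1 ≤ s)
    (v : CyclicPlace χ S.act S.P p s H) (hc : Divides p H 0) : TateHolds χ S 1 := by
  refine h.tate fun Δ hΔ x hx hfix => ?_
  have h1 := finrank_tate hp hs v hc hΔ
  have h2 : bound p s 0 = 0 := by simp [bound]
  rw [h2, Nat.le_zero] at h1
  have h3 := Submodule.finrank_eq_zero.1 h1
  have h4 : x ∈ tateIn χ S.act S.P Δ := ⟨hx, fun g hg => by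
    have := hfix g hg
    rwa [pow_one] at this⟩
  rwa [h3, Submodule.mem_bot] at h4

end Pool.Agent.Run7.h735.CP
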