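import Pool.Agent.Run7.h735.TP.Defs
import Pool.Agent.Y134.Cyc.Defs

/-!
# Cyclic coverings of the plane: definitions
-/

set_option autoImplicit false

universe u

namespace Pool.Agent.Run7.h735.CP

open Polynomial Pool.Agent.Y134.Cyc Pool.Agent.Y134.TF Pool.Agent.TH125.Gal

/-- `P = ∏ (1 - x T)`, the product over `x` in `B`. -/
def HasInverseRoots {K : Type} [Field K] (P : ℤ[X]) (B : Multiset K) : Prop :=
  P.coeff 0 = 1 ∧ P.map (Int.castRingHom K) = (B.map fun x => 1 - C x * X).prod

/-- The sum of the `m`-th powers of the elements of `B`. -/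
def powerSum {K : Type} [Field K] (B : Multiset K) (m : ℕ) : K := (B.map fun x => x ^ m).sum

/-- The trace of the `m`-th power of `Ψ`. -/
noncomputable def powTrace {K V : Type} [Field K] [AddCommGroup V] [Module K V]
    (Ψ : Module.End K V) (m : ℕ) : K :=
  LinearMap.trace K V (Ψ ^ m)

/-- The trace of the `m`-th power of `Ψ` on the subspace `U` stable under `Ψ`. -/
noncomputable def traceOn {K V : Type} [Field K] [AddCommGroup V] [Module K V]
    (Ψ : Module.End K V) (U : Submodule K V) (h : ∀ v ∈ U, Ψ v ∈ U) (m : ℕ) : K :=
  powTrace (Ψ.restrict h) m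

/-- The rank of a subspace. -/
noncomputable def rk {K V : Type} [Field K] [AddCommGroup V] [Module K V]
    (N : Submodule K V) : ℕ :=
  Module.finrank K N

/-- The zeta function `P₁(T) / (P₂(T) (1 - q T))` of the affine curve `F(x, y) = 0` over the finite field `κ` with `q`
elements: the polynomials `P₁` and `P₂` with the inverse roots `B₁` and `B₂` in `K`, and the number of points over all
finite extensions `L` of `κ`.  The polynomial `H` is the quotient of `P₁` by `P₂` modulo `p`. -/
structure Zeta (K : Type) [Field K] (p : ℕ) (H : (ZMod p)[X]) (κ : Type) [Field κ] [Fintype κ]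
    (F : MvPolynomial (Fin 2) κ) where
  /-- the numerator of the zeta function -/
  P₁ : ℤ[X]
  /-- the denominator, without the factor `1 - q T` -/
  P₂ : ℤ[X]
  /-- the inverse roots of the numerator -/
  B₁ : Multiset K
  /-- the inverse roots of the denominator -/
  B₂ : Multiset K
  roots₁ : HasInverseRoots P₁ B₁
  roots₂ : HasInverseRoots P₂ B₂
  curve : ∀ (L : Type) [Field L] [Fintype L] [Algebra κ L],
    (curvePoints F L : K) = Fintype.card L - powerSum B₁ (Module.finrank κ L)
      + powerSum B₂ (Module.finrank κ L)
  quotient : H * P₂.map (Int.castRingHom (ZMod p)) = P₁.map (Int.castRingHom (ZMod p))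

/-- The decomposition of `V` into `n - 1` parts which are stable under `Ψ`, such that the trace of the `m`-th power of
`Ψ` on the part for the `j`-th power of the character `θ` is the sum of the values of `θ ^ j` on the norms of `F(x, y)`
for the points `(x, y)` of the plane over the extension `L` of degree `m` of `κ`. -/
structure Parts {K V : Type} [Field K] [AddCommGroup V] [Module K V] (Ψ : Module.End K V) (n : ℕ)
    {κ : Type} [Field κ] [Fintype κ] (F : MvPolynomial (Fin 2) κ) (θ : MulChar κ K) where
  /-- the parts for the nontrivial characters of the covering group -/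
  part : Fin (n - 1) → Submodule K V
  internal : DirectSum.IsInternal part
  stable : ∀ j, ∀ v ∈ part j, Ψ v ∈ part j
  trace : ∀ (j : Fin (n - 1)) (L : Type) [Field L] [Fintype L] [Algebra κ L],
    traceOn Ψ (part j) (stable j) (Module.finrank κ L) = charSum (θ ^ ((j : ℕ) + 1)) F L

/-- A place for the cyclic covering `w ^ (p ^ s) = F(x, y)` of the plane, where the group `Γ` acts on the cohomology
algebra `A` of the surface by `act`, and `P` is the part of `H^2` which is the sum of the parts for the nontrivial
characters of the covering group: the residue field `κ`, which contains the roots of unity of order `p ^ s`; the equation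
`F` over `κ`; a multiplicative character `θ` of order `p ^ s` of `κ`; a Frobenius element `φ` of `Γ`; the zeta function of
the affine branch curve `F(x, y) = 0`; and the decomposition of `P` into the parts for the characters. -/
structure CyclicPlace {K A : Type} [Field K] [Ring A] [Algebra K A] {Γ : Type} [Group Γ]
    (χ : Γ →* Kˣ) (act : Γ →* (A ≃ₐ[K] A)) (P : Submodule K A) (p s : ℕ) (H : (ZMod p)[X]) where
  /-- the residue field -/
  κ : Type
  [field : Field κ]
  [fintype : Fintype κ]
  dvd : p ^ s ∣ Fintype.card κ - 1
  /-- the equation of the branch curve -/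
  F : MvPolynomial (Fin 2) κ
  /-- the multiplicative character -/
  θ : MulChar κ K
  order : orderOf θ = p ^ s
  /-- the Frobenius element -/
  φ : Γ
  frob : (χ φ : K) = Fintype.card κ
  /-- the zeta function of the branch curve -/
  zeta : Zeta K p H κ F
  stable : ∀ v ∈ P, (act φ).toLinearMap v ∈ P
  /-- the parts for the characters -/
  parts : Parts ((act φ).toLinearMap.restrict stable) (p ^ s) F θ

/-- The cyclotomic polynomials `Φ_M` with `p ∤ M` divide `H` at most `c M` times. -/
def Divides (p : ℕ) (H : (ZMod p)[X]) (c : ℕ →₀ ℕ) : Prop :=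
  ∀ M : ℕ, ¬ p ∣ M → ¬ cyclotomic M (ZMod p) ^ (c M + 1) ∣ H

/-- The number `(p ^ s - 1) ∑ φ(M) c(M)`. -/
noncomputable def bound (p s : ℕ) (c : ℕ →₀ ℕ) : ℕ :=
  (p ^ s - 1) * c.sum fun M e => M.totient * e

section
variable {K A : Type} [Field K] [Ring A] [Algebra K A] {Γ : Type} [Group Γ]

/-- The Tate classes of degree `2` in `P` over the finite extension given by the subgroup `Δ`. -/
def tateIn (χ : Γ →* Kˣ) (act : Γ →* (A ≃ₐ[K] A)) (P : Submodule K A) (Δ : Subgroup Γ) :
    Submodule K A where
  carrier := {x | x ∈ P ∧ ∀ g ∈ Δ, act g x = (χ g : K) • x}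
  add_mem' := by
    rintro x y ⟨hx, hx'⟩ ⟨hy, hy'⟩
    exact ⟨P.add_mem hx hy, fun g hg => by rw [map_add, hx' g hg, hy' g hg, smul_add]⟩
  zero_mem' := ⟨P.zero_mem, fun g _ => by rw [map_zero, smul_zero]⟩
  smul_mem' := by
    rintro c x ⟨hx, hx'⟩
    exact ⟨P.smul_mem c hx, fun g hg => by rw [map_smul, hx' g hg, smul_comm]⟩

/-- The combinations of classes in `C 1` which are in `P`. -/
def curvesIn (C : ℕ → Set A) (P : Submodule K A) : Submodule K A :=
  P ⊓ Submodule.span K (C 1)

/-- The Tate conjecture in all codimensions `j` over all finite extensions: every class of degree `2 j` on which all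
`g` in `Δ` act by `χ g ^ j` is a combination of classes of cycles of codimension `j` with the same property. -/
def TateAll (χ : Γ →* Kˣ) (gr : ℕ → Submodule K A) (C : ℕ → Set A) (act : Γ →* (A ≃ₐ[K] A)) :
    Prop :=
  ∀ Δ : Subgroup Γ, Δ.FiniteIndex → ∀ j, ∀ c ∈ gr (2 * j),
    (∀ g ∈ Δ, act g c = (χ g : K) ^ j • c) → c ∈ Submodule.span K (TP.cycleClasses χ C act Δ j)

end

open Pool.Agent.H914 Pool.Agent.H914.VarClass Pool.Agent.H914.VarClass.Obj
  Pool.Agent.H914.WeilCohomology Pool.Agent.H281R3.HT

variable {k : Type u} [Field k] {𝒱 : VarClass k} {ops : CycleOps 𝒱}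
  {W : WeilCohomology.{u, 0} ops} {Γ : Type} [Group Γ]

/-- The dimension of the space of the Tate classes in `S.P ⊆ H^2` over the finite extension given by the subgroup
`Δ`. -/
noncomputable def tateRank (χ : Γ →* W.Kˣ) (S : PVar W Γ) (Δ : Subgroup Γ) : ℕ :=
  rk (tateIn χ S.act S.P Δ)

/-- The dimension of the space of the combinations of classes of curves which are in `S.P`. -/
noncomputable def curveRank (S : PVar W Γ) : ℕ :=
  rk (curvesIn (algClasses W S.X) S.P)

/-- The Tate conjecture for `S` in all codimensions over all finite extensions. -/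
def TateOverAll (χ : Γ →* W.Kˣ) (S : PVar W Γ) : Prop :=
  TateAll χ (W.gr S.X) (algClasses W S.X) S.act

end Pool.Agent.Run7.h735.CP
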